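import Pool.Agent.Helper53.CTR.Goals

/-!
# Project CTR (MP_8b4d68_lc), packet SET: change of one digit
-/

set_option autoImplicit false

namespace Pool.Agent.Helper16.CTR

open Pool.Agent.Helper53.CTR
open Pool.Agent.Helper1.TE (GoalCT)
open Pool.Agent.Helper65.LinSpace (dig tab ifz eq01 capPow tab_lt dig_tab dig_lt)

theorem dig_eq_zero {q m R i : ℕ} (hR : R < q ^ m) (hq : 0 < q) (hi : m ≤ i) : dig q R i = 0 := by
  unfold dig
  rw [Nat.div_eq_of_lt (hR.trans_le (Nat.pow_le_pow_right hq hi)), Nat.zero_mod]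

theorem gSET : GoalSET := by
  intro hCT W e m X j y hW hW2 hX hj hy
  have hq : 0 < 2 ^ e := by positivity
  have hcap : capPow 2 e W = 2 ^ e := min_eq_left (by omega)
  have hd : ∀ i, ifz (eq01 i j) (dig (2 ^ e) X i) y = if i = j then y else dig (2 ^ e) X i := by
    intro i
    by_cases h : i = j <;> simp [ifz, eq01, h]
  have hdl : ∀ i, (if i = j then y else dig (2 ^ e) X i) < 2 ^ e := by
    intro i
    split_ifs
    · exact hy
    · exact dig_lt hq _ _
  have hs : setD W e m X j y = tab (2 ^ e) m fun i => if i = j then y else dig (2 ^ e) X i := by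
    unfold setD
    rw [hcap]
    simp only [hd]
    exact hCT W (2 ^ e) m _ (fun i _ => hdl i) hW
  have hlt : setD W e m X j y < (2 ^ e) ^ m := by
    rw [hs]
    exact tab_lt fun i _ => hdl i
  refine ⟨hlt, fun i => ?_, fun i => ?_⟩
  · rcases lt_or_ge i m with h | h
    · rw [hs]
      exact dig_tab (fun i _ => hdl i) h
    · rw [dig_eq_zero hlt hq h, if_neg (by omega), dig_eq_zero hX hq h]
  · unfold getD
    rw [hcap]

end Pool.Agent.Helper16.CTR
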